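import Pool.Agent.Helper12.RQ.Polar

/-!
# Needles (packet NEEDLE, MP_a2585e_an)
-/

set_option autoImplicit false

open MeasureTheory Set Filter Topology Metric

open scoped ENNReal NNReal ContDiff

namespace Pool.Agent.Helper5.RQ

open Pool.Agent.Helper12.RQ

/-- the function `|y| + A (1 - w y)` -/
noncomputable def Nf {n : ℕ} (A : ℝ) (w : E n → ℝ) (y : E n) : ℝ := ‖y‖ + A * (1 - w y)

theorem Nf_lip {n : ℕ} {A : ℝ} (hA : 0 < A) {w : E n → ℝ} {C : ℝ≥0} (hw : LipschitzWith C w)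
    (y z : E n) : |Nf A w y - Nf A w z| ≤ (1 + A * C) * ‖y - z‖ := by
  have h1 : |‖y‖ - ‖z‖| ≤ ‖y - z‖ := abs_norm_sub_norm_le y z
  have h2 : |w y - w z| ≤ C * ‖y - z‖ := by
    have := hw.dist_le_mul y z
    rwa [Real.dist_eq, dist_eq_norm] at this
  have h3 : Nf A w y - Nf A w z = (‖y‖ - ‖z‖) - A * (w y - w z) := by
    unfold Nf
    ring
  rw [h3]
  calc |(‖y‖ - ‖z‖) - A * (w y - w z)| ≤ |‖y‖ - ‖z‖| + |A * (w y - w z)| := abs_sub _ _
    _ = |‖y‖ - ‖z‖| + A * |w y - w z| := by rw [abs_mul, abs_of_pos hA]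
    _ ≤ ‖y - z‖ + A * (C * ‖y - z‖) := by gcongr
    _ = _ := by ring

theorem Nf_star {n : ℕ} {A : ℝ} (hA : 0 < A) {w : E n → ℝ} {C : ℝ≥0} (hw : LipschitzWith C w)
    (h0 : w 0 = 1) (hray : ∀ y, ∀ t ∈ Icc (0 : ℝ) 1, w y ≤ w (t • y)) :
    IsStar 1 (1 + A * C) (Nf A w) where
  cpos := one_pos
  zero := by simp [Nf, h0]
  lip := Nf_lip hA hw
  slope := by
    intro y t ht
    have h1 := hray y t ht
    have h2 : ‖t • y‖ = t * ‖y‖ := by rw [norm_smul, Real.norm_of_nonneg ht.1]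
    unfold Nf
    rw [h2]
    nlinarith [mul_le_mul_of_nonneg_left h1 hA.le]

theorem fderiv_bound {n : ℕ} {A : ℝ} (hA : 0 < A) {w : E n → ℝ} {C : ℝ≥0}
    (hw : LipschitzWith C w) :
    ∀ᵐ y : E n, ‖fderiv ℝ (Nf A w) y‖ₑ ≤ 1 + ENNReal.ofReal A * ‖fderiv ℝ w y‖ₑ := by
  have hn : LipschitzWith 1 (fun y : E n => ‖y‖) := lipschitzWith_one_norm
  filter_upwards [hw.ae_differentiableAt (μ := volume), hn.ae_differentiableAt (μ := volume)]
    with y h1 h2
  have h3 : fderiv ℝ (Nf A w) y = fderiv ℝ (fun y : E n => ‖y‖) y - A • fderiv ℝ w y := by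
    have h4 : HasFDerivAt (fun y => ‖y‖ + A * (1 - w y))
        (fderiv ℝ (fun y : E n => ‖y‖) y + A • (0 - fderiv ℝ w y)) y := by
      refine h2.hasFDerivAt.add ?_
      have h5 : HasFDerivAt (fun y => 1 - w y) (0 - fderiv ℝ w y) y :=
        (hasFDerivAt_const (1 : ℝ) y).sub h1.hasFDerivAt
      exact h5.const_mul A
    have h6 := h4.fderiv
    change fderiv ℝ (fun y => ‖y‖ + A * (1 - w y)) y = _
    rw [h6]
    simp [sub_eq_add_neg]
  rw [h3]
  have h7 : ‖fderiv ℝ (fun y : E n => ‖y‖) y‖ₑ ≤ 1 := by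
    have := norm_fderiv_le_of_lipschitz ℝ hn (x₀ := y)
    rw [← ofReal_norm]
    calc ENNReal.ofReal ‖fderiv ℝ (fun y : E n => ‖y‖) y‖ ≤ ENNReal.ofReal 1 :=
        ENNReal.ofReal_le_ofReal (by simpa using this)
      _ = 1 := ENNReal.ofReal_one
  have h8 : ‖A • fderiv ℝ w y‖ₑ = ENNReal.ofReal A * ‖fderiv ℝ w y‖ₑ := by
    rw [enorm_smul, Real.enorm_eq_ofReal hA.le]
  calc ‖fderiv ℝ (fun y : E n => ‖y‖) y - A • fderiv ℝ w y‖ₑ
      ≤ ‖fderiv ℝ (fun y : E n => ‖y‖) y‖ₑ + ‖A • fderiv ℝ w y‖ₑ := enorm_sub_le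
    _ ≤ _ := by
      rw [h8]
      gcongr

theorem energy_bound {n : ℕ} {p A M : ℝ} (hp : 1 ≤ p) (hA : 0 < A) {w : E n → ℝ} {C : ℝ≥0}
    (hw : LipschitzWith C w) :
    (∫⁻ y in ball (0 : E n) M, ‖fderiv ℝ (Nf A w) y‖ₑ ^ p) ^ (1 / p) ≤
      volume (ball (0 : E n) M) ^ (1 / p) + ENNReal.ofReal A * (en p w) ^ (1 / p) := by
  have hp0 : 0 < p := by linarith
  calc (∫⁻ y in ball (0 : E n) M, ‖fderiv ℝ (Nf A w) y‖ₑ ^ p) ^ (1 / p)
      ≤ (∫⁻ y in ball (0 : E n) M, ((fun _ : E n => (1 : ℝ≥0∞)) +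
          fun y : E n => ENNReal.ofReal A * ‖fderiv ℝ w y‖ₑ) y ^ p) ^ (1 / p) := by
        refine ENNReal.rpow_le_rpow ?_ (by positivity)
        refine lintegral_mono_ae ?_
        filter_upwards [ae_restrict_of_ae (s := ball (0 : E n) M) (fderiv_bound hA hw)] with y hy
        exact ENNReal.rpow_le_rpow hy hp0.le
    _ ≤ (∫⁻ _ in ball (0 : E n) M, (1 : ℝ≥0∞) ^ p) ^ (1 / p) +
        (∫⁻ y in ball (0 : E n) M, (ENNReal.ofReal A * ‖fderiv ℝ w y‖ₑ) ^ p) ^ (1 / p) := by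
        refine ENNReal.lintegral_Lp_add_le aemeasurable_const ?_ hp
        exact ((measurable_fderiv ℝ w).enorm.const_mul _).aemeasurable
    _ ≤ _ := by
        have h1 : (∫⁻ _ in ball (0 : E n) M, (1 : ℝ≥0∞) ^ p) = volume (ball (0 : E n) M) := by
          simp
        have h2 : (∫⁻ y in ball (0 : E n) M, (ENNReal.ofReal A * ‖fderiv ℝ w y‖ₑ) ^ p) ≤
            ENNReal.ofReal A ^ p * en p w := by
          calc (∫⁻ y in ball (0 : E n) M, (ENNReal.ofReal A * ‖fderiv ℝ w y‖ₑ) ^ p)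
              ≤ ∫⁻ y, (ENNReal.ofReal A * ‖fderiv ℝ w y‖ₑ) ^ p := setLIntegral_le_lintegral _ _
            _ = ∫⁻ y, ENNReal.ofReal A ^ p * ‖fderiv ℝ w y‖ₑ ^ p := by
              congr 1
              funext y
              exact ENNReal.mul_rpow_of_nonneg _ _ hp0.le
            _ = ENNReal.ofReal A ^ p * en p w := by
              rw [en, lintegral_const_mul]
              exact (measurable_fderiv ℝ w).enorm.pow_const p
        rw [h1]
        gcongr
        calc (∫⁻ y in ball (0 : E n) M, (ENNReal.ofReal A * ‖fderiv ℝ w y‖ₑ) ^ p) ^ (1 / p)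
            ≤ (ENNReal.ofReal A ^ p * en p w) ^ (1 / p) :=
              ENNReal.rpow_le_rpow h2 (by positivity)
          _ = ENNReal.ofReal A * (en p w) ^ (1 / p) := by
              rw [ENNReal.mul_rpow_of_nonneg _ _ (by positivity), ← ENNReal.rpow_mul,
                mul_one_div_cancel hp0.ne', ENNReal.rpow_one]

/-- Hoelder -/
theorem hoelder {p T : ℝ} (hp : 1 < p) {I : Set ℝ} (hI : volume I = ENNReal.ofReal T)
    (hIm : MeasurableSet I) {D : ℝ → ℝ≥0∞} (hD : Measurable D) (h0 : ∀ t ∈ I, D t ≠ 0)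
    (h1 : ∀ t ∈ I, D t ≠ ⊤) :
    ENNReal.ofReal T ≤ (∫⁻ t in I, D t) ^ (1 / p) *
      (∫⁻ t in I, D t ^ (-(1 / (p - 1)))) ^ ((p - 1) / p) := by
  have hp0 : 0 < p := by linarith
  have hp1 : 0 < p - 1 := by linarith
  have hc : p.HolderConjugate (p / (p - 1)) := by
    have := Real.HolderConjugate.conjExponent hp
    exact this
  have h2 := ENNReal.lintegral_mul_le_Lp_mul_Lq (volume.restrict I) hc
    (f := fun t => D t ^ (1 / p)) (g := fun t => D t ^ (-(1 / p)))
    (hD.pow_const _).aemeasurable (hD.pow_const _).aemeasurable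
  have h3 : ∫⁻ t in I, ((fun t => D t ^ (1 / p)) * fun t => D t ^ (-(1 / p))) t =
      ENNReal.ofReal T := by
    rw [← hI, ← setLIntegral_one]
    refine setLIntegral_congr_fun hIm ?_
    intro t ht
    change D t ^ (1 / p) * D t ^ (-(1 / p)) = 1
    rw [← ENNReal.rpow_add _ _ (h0 t ht) (h1 t ht), add_neg_cancel, ENNReal.rpow_zero]
  have h4 : ∫⁻ t in I, (D t ^ (1 / p)) ^ p = ∫⁻ t in I, D t := by
    congr 1
    funext t
    rw [← ENNReal.rpow_mul, one_div_mul_cancel hp0.ne', ENNReal.rpow_one]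
  have h5 : ∫⁻ t in I, (D t ^ (-(1 / p))) ^ (p / (p - 1)) =
      ∫⁻ t in I, D t ^ (-(1 / (p - 1))) := by
    congr 1
    funext t
    rw [← ENNReal.rpow_mul]
    congr 1
    field_simp
  rw [h3, h4, h5] at h2
  have h6 : 1 / (p / (p - 1)) = (p - 1) / p := by field_simp
  rw [h6] at h2
  exact h2

theorem needle (h1 : StmtW) (h2 : StmtPOS) : StmtNEEDLE := by
  intro n p hn hp1 hp2 ε hε
  have hn2 : (2 : ℝ) ≤ n := by exact_mod_cast hn
  have hp : 1 < p := by linarith
  have hp0 : 0 < p := by linarith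
  have hpm : 0 < p - 1 := by linarith
  obtain ⟨hs0, hs1⟩ := h2 n p hn hp1 hp2
  obtain ⟨M₀, hM₀, hW⟩ := h1 n p hn hp hp2 hs1 (ε / 2) (by positivity)
  refine ⟨M₀, hM₀, fun M hM => ?_⟩
  obtain ⟨w, e, δ, he, hδ, hδ1, ⟨C, hC⟩, hw01, hwδ, hwe, hwM, hray, hen⟩ := hW M hM
  -- the constants
  set s := (segCap n p).toReal with hs
  have hsc : segCap n p = ENNReal.ofReal s := (ENNReal.ofReal_toReal hs1.ne).symm
  have hspos : 0 < s := ENNReal.toReal_pos hs0.ne' hs1.ne
  set a := (s + ε / 2) ^ (1 / p) with ha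
  set b := (s + ε) ^ (1 / p) with hb
  have hab : a < b := Real.rpow_lt_rpow (by positivity) (by linarith) (by positivity)
  have ha0 : 0 ≤ a := by positivity
  set V := (volume (ball (0 : E n) M) ^ (1 / p)).toReal with hV
  have hVtop : volume (ball (0 : E n) M) ^ (1 / p) ≠ ⊤ :=
    ENNReal.rpow_ne_top_of_nonneg (by positivity) measure_ball_lt_top.ne
  have hV0 : 0 ≤ V := ENNReal.toReal_nonneg
  set A := V / (b - a) + 1 with hA
  have hba : 0 < b - a := by linarith
  have hApos : 0 < A := by positivity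
  have hw0 : w 0 = 1 := hwδ 0 (by simpa using hδ.le)
  refine ⟨Nf A w, e, A, δ, 1, 1 + A * C, he, hApos, hδ, hδ1, Nf_star hApos hC hw0 hray, ?_, ?_, ?_,
    ?_⟩
  · intro y hy
    rw [Nf, hwδ y hy]
    ring
  · intro y hy
    rw [Nf, hwM y hy]
    ring
  · intro t ht
    rw [Nf, hwe t ht, norm_smul, he, Real.norm_of_nonneg ht.1]
    ring
  · intro D d₁ d₂ hD
    have hM1 : 1 < M := lt_of_lt_of_le hM₀ hM
    have hT : 0 < M + A - 1 := by linarith
    have hI0 : ∀ t ∈ Ioo (1 : ℝ) (M + A), D t ≠ 0 := by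
      intro t ht
      have ht0 : 0 < t := by linarith [ht.1]
      have h3 := hD.lower t ht0
      have h4 : 0 < ENNReal.ofReal (d₁ * t ^ (n - 1)) := by
        rw [ENNReal.ofReal_pos]
        have := hD.pos
        positivity
      exact (lt_of_lt_of_le h4 h3).ne'
    have hI1 : ∀ t ∈ Ioo (1 : ℝ) (M + A), D t ≠ ⊤ := by
      intro t ht
      have ht0 : 0 < t := by linarith [ht.1]
      exact (lt_of_le_of_lt (hD.upper t ht0) ENNReal.ofReal_lt_top).ne
    have hH := hoelder (T := M + A - 1) hp (I := Ioo (1 : ℝ) (M + A)) Real.volume_Ioo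
      measurableSet_Ioo hD.meas hI0 hI1
    -- the flux bound
    have hflux : ∫⁻ t in Ioo (1 : ℝ) (M + A), D t ≤
        ∫⁻ y in ball (0 : E n) M, ‖fderiv ℝ (Nf A w) y‖ₑ ^ p := by
      rw [← hD.flux_eq _ measurableSet_Ioo (fun t ht => by
        have := ht.1
        exact mem_Ioi.2 (by linarith))]
      unfold flux
      refine lintegral_mono_set ?_
      intro y hy
      rw [mem_ball_zero_iff]
      by_contra hcon
      rw [not_lt] at hcon
      have h3 : Nf A w y = ‖y‖ + A := by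
        rw [Nf, hwM y hcon]
        ring
      have h4 := hy.2
      rw [h3] at h4
      linarith
    have hX : (∫⁻ t in Ioo (1 : ℝ) (M + A), D t) ^ (1 / p) ≤
        ENNReal.ofReal ((M + A - 1) * b) := by
      calc (∫⁻ t in Ioo (1 : ℝ) (M + A), D t) ^ (1 / p)
          ≤ (∫⁻ y in ball (0 : E n) M, ‖fderiv ℝ (Nf A w) y‖ₑ ^ p) ^ (1 / p) :=
            ENNReal.rpow_le_rpow hflux (by positivity)
        _ ≤ volume (ball (0 : E n) M) ^ (1 / p) + ENNReal.ofReal A * (en p w) ^ (1 / p) :=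
            energy_bound hp.le hApos hC
        _ ≤ ENNReal.ofReal V + ENNReal.ofReal A * ENNReal.ofReal a := by
            rw [hV, ENNReal.ofReal_toReal hVtop]
            gcongr
            rw [ha, ← ENNReal.ofReal_rpow_of_pos (by positivity)]
            refine ENNReal.rpow_le_rpow ?_ (by positivity)
            rw [hsc] at hen
            rwa [← ENNReal.ofReal_add hspos.le (by positivity)] at hen
        _ = ENNReal.ofReal (V + A * a) := by
            rw [ENNReal.ofReal_add hV0 (by positivity), ENNReal.ofReal_mul hApos.le]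
        _ ≤ ENNReal.ofReal ((M + A - 1) * b) := by
            apply ENNReal.ofReal_le_ofReal
            have h3 : V ≤ A * (b - a) := by
              rw [hA, add_mul, div_mul_cancel₀ _ hba.ne']
              linarith
            have hb0 : 0 ≤ b := by linarith
            nlinarith
    -- conclusion
    set J := ∫⁻ t in Ioo (1 : ℝ) (M + A), D t ^ (-(1 / (p - 1))) with hJ
    have h5 : ENNReal.ofReal (M + A - 1) ≤
        ENNReal.ofReal ((M + A - 1) * b) * J ^ ((p - 1) / p) :=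
      hH.trans (by gcongr)
    have hb0 : 0 < b := by positivity
    have h6 : 1 ≤ ENNReal.ofReal b * J ^ ((p - 1) / p) := by
      rw [ENNReal.ofReal_mul hT.le, mul_assoc] at h5
      have h7 : ENNReal.ofReal (M + A - 1) ≠ 0 := by
        rw [Ne, ENNReal.ofReal_eq_zero, not_le]
        exact hT
      have h8 : ENNReal.ofReal (M + A - 1) * 1 ≤
          ENNReal.ofReal (M + A - 1) * (ENNReal.ofReal b * J ^ ((p - 1) / p)) := by
        rwa [mul_one]
      exact (ENNReal.mul_le_mul_iff_right h7 ENNReal.ofReal_ne_top).1 h8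
    have h7 : segCap n p + ENNReal.ofReal ε = ENNReal.ofReal (s + ε) := by
      rw [hsc, ENNReal.ofReal_add hspos.le hε.le]
    rw [h7]
    have h8 : 1 ≤ ENNReal.ofReal (s + ε) ^ (1 / (p - 1)) * J := by
      have h9 := ENNReal.rpow_le_rpow h6 (z := p / (p - 1)) (by positivity)
      rw [ENNReal.one_rpow, ENNReal.mul_rpow_of_nonneg _ _ (by positivity), ← ENNReal.rpow_mul,
        hb, ← ENNReal.ofReal_rpow_of_pos (by positivity), ← ENNReal.rpow_mul] at h9
      have e1 : (p - 1) / p * (p / (p - 1)) = 1 := by field_simp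
      have e2 : 1 / p * (p / (p - 1)) = 1 / (p - 1) := by field_simp
      rw [e1, e2, ENNReal.rpow_one] at h9
      exact h9
    rw [ENNReal.rpow_neg, ← one_div]
    exact ENNReal.div_le_of_le_mul' h8

end Pool.Agent.Helper5.RQ
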